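import Pool.Agent.Y703.CT.StmF
import Pool.Agent.Y48.CT.SEL
import Pool.Agent.Y155.CT.Act

/-!
# CT-SELC: a nontrivial kernel gives a nontrivial Selmer class
-/

set_option autoImplicit false
set_option linter.unusedSectionVars false

open scoped Classical

namespace Pool.Agent.Y363.CT.SELC

open Pool.Agent.Y692.QS (Ei w nr)
open Pool.Agent.Y715.T.Gi Pool.Agent.Y715.T.Nr Pool.Agent.Y715.T.Df
open Pool.Agent.Y715.T.Rec (cs)
open Pool.Agent.Y715.T.RecG
open Pool.Agent.Y715.T.Sel (kc_mul kc_one kc_congr kc_pow kc_uniq kc_exp ex_root root_ne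
  iota_sq iota_ev odd_of not_dvd_of_unr i₀_mod)
open Pool.Agent.Y48.CT.SEL (p0 pr0 esq prod_form cf_prod not_assoc_lam)
open Pool.Agent.Y155.CT (a_mul a_cont)
open Pool.Agent.Y703.CT

variable {i₀ : QB} {hi : i₀ ^ 2 + i₀ + 1 = 0}

/-- the character of a cubic twist exists -/
lemma exists_tw (B : Ei) : ∃ (u : QB) (a : GK i₀ → ZMod 3), Tw hi B u a := by
  obtain ⟨u, hu⟩ := ex_root (ev i₀ hi B)
  have h1 : ∀ σ : GK i₀, ∃ c : ZMod 3, σ u = i₀ ^ (-c).val * u := by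
    intro σ
    have h2 : (σ u) ^ 3 = u ^ 3 := by rw [← map_pow, hu, gk_ev]
    obtain ⟨n, hn⟩ := cube_eq hi h2
    refine ⟨-(n : ZMod 3), ?_⟩
    rw [neg_neg, ← i₀_mod (hi := hi)]
    exact hn
  choose a ha using h1
  exact ⟨u, a, hu, ha⟩

/-- products of units are units -/
lemma not_lt_prod {p : ℕ} [Fact p.Prime] {I : PadicAlgCl p} (hI : I ^ 2 + I + 1 = 0)
    {J : Type} [Fintype J] {π : J → Ei} (h : ∀ j, ¬ ‖ev I hI (π j)‖ < 1) (f : J → ℕ) :
    ¬ ‖ev I hI (∏ j, π j ^ f j)‖ < 1 := by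
  have h1 : ‖ev I hI (∏ j, π j ^ f j)‖ = 1 := by
    rw [map_prod, norm_prod]
    refine Finset.prod_eq_one fun j _ => ?_
    rw [map_pow, norm_pow, eq_one_of_not_lt hI (h j), one_pow]
  rw [h1]
  exact lt_irrefl _

/-- **CT-SELC.** -/
theorem t_SELC : S_SELC := by
  intro hFF hCUB hCUB3 hPT hRAMC J _ π e hD hker h9 i₀ hi u a hTw hsel
  have hker' : ∃ v : J → ZMod 3, (∀ j, ∑ i, e i * cs (π j) (π i) * (v i - v j) = 0) ∧
      ∃ i₁ i₂, v i₁ ≠ v i₂ := by
    by_contra hcon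
    apply hker
    intro v hv i j
    by_contra hne
    exact hcon ⟨v, hv, i, j, hne⟩
  obtain ⟨v, hv, i₁, i₂, hne⟩ := hker'
  have hB0 : (∏ j, π j ^ (e j * v j).val) ≠ 0 := pr0 hD _
  have hD0 : pD π e ≠ 0 := pr0 hD _
  obtain ⟨β, a', hTw'⟩ := exists_tw (hi := hi) (∏ j, π j ^ (e j * v j).val)
  have hm : ∀ σ τ : GK i₀, -a' (σ * τ) = -a' σ + -a' τ := by
    intro σ τ
    rw [a_mul hB0 hTw' σ τ]
    ring
  have hc : IsLocallyConstant (fun σ : GK i₀ => -a' σ) :=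
    (a_cont hB0 hTw').comp (fun c : ZMod 3 => -c)
  have hKc : Kc hi (∏ j, π j ^ (e j * v j).val) (fun σ => -a' σ) :=
    kc_of hi (root_ne (hi := hi) hB0 hTw'.cube) hTw'.cube hTw'.act
  have hloc : ∀ (p : ℕ) [Fact p.Prime] (ι : QB →ₐ[ℚ] PadicAlgCl p),
      ∃ R, St1 hi ι a (fun σ => -a' σ) R := by
    intro p _ ι
    by_cases hp3 : p = 3
    · subst hp3
      exact hPT i₀ hi _ _ hB0 hD0 u a hTw _ hKc 3 ι
        (hCUB3 inferInstance (ι i₀) (iota_sq' hi ι) _ _ (prod_form hD _) (prod_form hD _) h9)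
    · by_cases hj : ∃ j, ‖ι (ev i₀ hi (π j))‖ < 1
      · obtain ⟨j, hj⟩ := hj
        exact hRAMC J π e hD i₀ hi u a hTw v _ hKc j (hv j) p ι hj
      · have hj' : ∀ j, ¬ ‖ev (ι i₀) (iota_sq' hi ι) (π j)‖ < 1 := by
          intro j h1
          apply hj
          refine ⟨j, ?_⟩
          rw [iota_ev]
          exact h1
        exact hPT i₀ hi _ _ hB0 hD0 u a hTw _ hKc p ι
          (hCUB hFF p hp3 (ι i₀) (iota_sq' hi ι) _ _ (not_lt_prod _ hj' _)
            (not_lt_prod _ hj' _))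
  obtain ⟨c, hc'⟩ := hsel _ hc hm hloc
  have hb : Kc hi (∏ j, π j ^ (e j).val) (fun σ => -a σ) :=
    kc_of hi (root_ne (hi := hi) (z := pD π e) hD0 hTw.cube) hTw.cube hTw.act
  have hy := kc_mul hB0 (pow_ne_zero c.val (pr0 hD _)) hKc (kc_pow (pr0 hD _) hb c.val)
  have ey : (∏ j, π j ^ (e j * v j).val) * (∏ i, π i ^ (e i).val) ^ c.val =
      ∏ i, π i ^ ((e i * v i).val + (e i).val * c.val) := by
    rw [← Finset.prod_pow, ← Finset.prod_mul_distrib]
    refine Finset.prod_congr rfl fun i _ => ?_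
    rw [← pow_mul, ← pow_add]
  rw [ey] at hy
  have hy2 : Kc hi (∏ i, π i ^ (e i * (v i + c)).val)
      (fun σ => -a' σ + (c.val : ZMod 3) * -a σ) := by
    refine kc_exp (p0 hD) (fun i => ?_) hy
    push_cast
    rw [ZMod.natCast_zmod_val, ZMod.natCast_zmod_val, ZMod.natCast_zmod_val,
      ZMod.natCast_zmod_val]
    ring
  have hy3 : ∀ σ : GK i₀, -a' σ + (c.val : ZMod 3) * -a σ = 0 := by
    intro σ
    have h1 : -a' σ = c * a σ := hc' σ
    rw [h1, ZMod.natCast_zmod_val]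
    ring
  have hvj : ∀ j, v j = -c := by
    intro j
    obtain ⟨p, hp, ι, hl⟩ := exists_emb hi (hD.pq j).prime
    have hp3 := odd_of hi ι (hD.pq j).prime hl (not_assoc_lam (hD.pq j))
    have h1 := not_dvd_of_unr (cf_prod hD (fun i => e i * (v i + c))) hy2 hp3 ι
      (hD.pq j).prime hl (fun τ σ _ _ => hy3 σ)
    have hyj : e j * (v j + c) = 0 := by
      by_contra hne'
      apply h1
      refine dvd_trans (dvd_pow_self (π j) ?_) (Finset.dvd_prod_of_mem
        (fun i => π i ^ (e i * (v i + c)).val) (Finset.mem_univ j))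
      rwa [Ne, ZMod.val_eq_zero]
    have h2 := esq hD j
    have h3 : v j + c = 0 := by
      calc v j + c = (e j * e j) * (v j + c) := by rw [h2, one_mul]
        _ = e j * (e j * (v j + c)) := by ring
        _ = 0 := by rw [hyj, mul_zero]
    exact eq_neg_of_add_eq_zero_left h3
  exact hne ((hvj i₁).trans (hvj i₂).symm)

end Pool.Agent.Y363.CT.SELC
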